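import Pool.Agent.Lib.PLE.Euler

/-!
# The Euler inequality in numbers

For a cubic planar map and a vertex set `X` whose complement is connected:
`6 + (#gx - #inF) ≤ 2 #bd X + ∑_{d ∈ inF} (6 / len d - 1)`.
-/

set_option autoImplicit false
set_option linter.unusedSectionVars false

namespace Pool.Agent.Lib.PLE

open Finset Pool.Agent.Lib.PLG

variable {D : Type*} [Fintype D] [DecidableEq D] {G : CM D}

/-- orbits of constant size -/
lemma orbs_const {π : Equiv.Perm D} {S : Finset D} (h : Cl π S) (k : ℕ)
    (hk : ∀ d ∈ S, (orb π d).card = k) : (S.card : ℚ) = k * (orbs π S).card := by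
  rcases S.eq_empty_or_nonempty with h0 | ⟨d0, hd0⟩
  · subst h0; simp [orbs]
  have hkpos : (k : ℚ) ≠ 0 := by
    have := orb_card_pos π d0
    rw [hk d0 hd0] at this
    positivity
  rw [← sum_inv_card h]
  have e1 : ∀ d ∈ S, (1 : ℚ) / ((orb π d).card : ℚ) = 1 / k := by
    intro d hd
    rw [hk d hd]
  rw [sum_congr rfl e1, sum_const, nsmul_eq_mul]
  field_simp

lemma orb_alpha_card (d : D) : (orb G.α d).card = 2 := by
  have h : orb G.α d = {d, G.α d} := by
    ext e
    rw [mem_orb, mem_insert, mem_singleton]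
    constructor
    · intro hs
      have hcl : Cl G.α ({d, G.α d} : Finset D) := by
        intro x
        simp only [mem_insert, mem_singleton]
        constructor
        · rintro (h | h)
          · right; rw [← h, G.αα]
          · left; exact G.α.injective h
        · rintro (h | h)
          · right; rw [h]
          · left; rw [h, G.αα]
      have := (hcl.sc hs).1 (by simp)
      simpa using this
    · rintro (h | h)
      · rw [h]
      · rw [h]; exact (Equiv.Perm.SameCycle.refl _ _).apply_right
  rw [h, card_pair (G.αne d).symm]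

lemma orb_sigma_card (hc : G.Cub) (d : D) : (orb G.σ d).card = 3 := by
  have hs2 : G.σ (G.σ d) ≠ d := by
    intro h
    have := (hc d).1
    rw [h] at this
    exact (hc d).2 this
  have h : orb G.σ d = {d, G.σ d, G.σ (G.σ d)} := by
    ext e
    rw [mem_orb]
    constructor
    · intro hs
      have hcl : Cl G.σ ({d, G.σ d, G.σ (G.σ d)} : Finset D) := by
        intro x
        simp only [mem_insert, mem_singleton]
        constructor
        · rintro (h | h | h)
          · right; right
            apply G.σ.injective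
            rw [h, (hc d).1]
          · left; exact G.σ.injective h
          · right; left; exact G.σ.injective h
        · rintro (h | h | h)
          · right; left; rw [h]
          · right; right; rw [h]
          · left; rw [h, (hc d).1]
      exact (hcl.sc hs).1 (by simp)
    · intro hs
      simp only [mem_insert, mem_singleton] at hs
      rcases hs with h | h | h
      · rw [h]
      · rw [h]; exact (Equiv.Perm.SameCycle.refl _ _).apply_right
      · rw [h]; exact (Equiv.Perm.SameCycle.refl _ _).apply_right.apply_right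
  rw [h]
  rw [card_eq_three]
  exact ⟨_, _, _, (hc d).2.symm, hs2.symm, (hc (G.σ d)).2.symm, rfl⟩

lemma bd_add_gx (X : Finset D) : X.card = (G.bd X).card + (gx G X).card := by
  rw [G.card_eq X]; rfl

theorem euler_count (hc : G.Cub) (hpl : G.PL) {X : Finset D} (hX : G.IsV X) (hne : X.Nonempty)
    (hconn : ∀ Z : Finset D, G.IsV Z → Z ⊆ Xᶜ → (∀ d ∈ Z, G.α d ∉ Z → G.α d ∈ X) →
      Z = ∅ ∨ Z = Xᶜ) :
    (6 : ℚ) + ((gx G X).card - (inF G X).card) ≤ 2 * (G.bd X).card +
      ∑ d ∈ inF G X, (6 / ((orb G.φ d).card : ℚ) - 1) := by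
  have h1 := euler_dim hpl hX hne hconn
  have h1' : ((orbs G.α (gx G X)).card : ℚ) + 1 ≤
      (orbs G.σ X).card + (orbs G.φ (inF G X)).card := by exact_mod_cast h1
  have h2 := orbs_const (gx_cl (G := G) X) 2 (fun d _ => orb_alpha_card d)
  have h3 := orbs_const (isV_cl hX) 3 (fun d _ => orb_sigma_card hc d)
  have h4 : (X.card : ℚ) = (G.bd X).card + (gx G X).card := by
    exact_mod_cast bd_add_gx (G := G) X
  have h5 := sum_inv_card (inF_cl (G := G) X)
  rw [sum_sub_distrib, sum_const, nsmul_eq_mul, mul_one]
  have h6 : ∑ d ∈ inF G X, 6 / ((orb G.φ d).card : ℚ) = 6 * (orbs G.φ (inF G X)).card := by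
    rw [← h5, mul_sum]
    refine sum_congr rfl (fun d _ => ?_)
    ring
  rw [h6]
  push_cast at h2 h3
  linarith

/-- the complement of a vertex set with at most five boundary edges is connected -/
lemma compl_conn (ht : G.TEC) {X : Finset D} (hX : G.IsV X) (h5 : (G.bd X).card ≤ 5)
    (Z : Finset D) (hZ : G.IsV Z) (hZX : Z ⊆ Xᶜ) (h : ∀ d ∈ Z, G.α d ∉ Z → G.α d ∈ X) :
    Z = ∅ ∨ Z = Xᶜ := by
  by_contra hno
  push Not at hno
  obtain ⟨h1, h2⟩ := hno
  have hne : X.Nonempty ∨ X = ∅ := by
    rcases X.eq_empty_or_nonempty with h | h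
    · exact Or.inr h
    · exact Or.inl h
  have hZu : Z ≠ univ := by
    intro hh
    apply h2
    apply le_antisymm hZX
    rw [hh]
    exact subset_univ _
  have hW : G.IsV (Xᶜ \ Z) := hX.compl.sdiff hZ
  have hWne : (Xᶜ \ Z).Nonempty := by
    rw [sdiff_nonempty]
    intro hh
    exact h2 (le_antisymm hZX hh)
  have hZne : Z.Nonempty := h1
  have hWu : Xᶜ \ Z ≠ univ := by
    intro hh
    obtain ⟨z, hz⟩ := hZne
    have : z ∈ Xᶜ \ Z := by rw [hh]; exact mem_univ _
    exact (mem_sdiff.1 this).2 hz
  have b1 := ht Z hZ hZne hZu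
  have b2 := ht (Xᶜ \ Z) hW hWne hWu
  -- both boundaries lie in the boundary of X
  have b3 : (G.bd Z).card + (G.bd (Xᶜ \ Z)).card ≤ (G.bd X).card := by
    have hd : Disjoint (G.bd Z) (G.bd (Xᶜ \ Z)) := by
      rw [disjoint_left]
      intro x hx hx'
      rw [CM.mem_bd] at hx hx'
      exact (mem_sdiff.1 hx'.1).2 hx.1
    rw [← card_union_of_disjoint hd]
    refine card_le_card_of_injOn G.α ?_ G.α.injective.injOn
    intro d hd
    rw [mem_coe, mem_union, CM.mem_bd, CM.mem_bd] at hd
    rw [mem_coe, CM.mem_bd, G.αα]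
    rcases hd with ⟨hd, hd2⟩ | ⟨hd, hd2⟩
    · exact ⟨h d hd hd2, fun hh => by have := hZX hd; rw [mem_compl] at this; exact this hh⟩
    · rw [mem_sdiff] at hd hd2
      have hdX : d ∉ X := mem_compl.1 hd.1
      refine ⟨?_, hdX⟩
      by_contra hh
      apply hd2
      refine ⟨mem_compl.2 hh, fun hz => ?_⟩
      have := h (G.α d) hz (by rw [G.αα]; exact hd.2)
      rw [G.αα] at this
      exact hdX this
  omega

/-- **Final contradiction**: `X` is everything, or has 4 or 5 boundary edges and at least
`2 r` outer darts; the curvature of the inner faces is at most half the number of outer darts. -/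
theorem euler_contra (hc : G.Cub) (ht : G.TEC) (hpl : G.PL) {X : Finset D} (hX : G.IsV X)
    (hne : X.Nonempty) (h5 : (G.bd X).card ≤ 5)
    (hB1 : X ≠ univ → 2 * (G.bd X).card + (inF G X).card ≤ (gx G X).card)
    (hJ : 2 * ∑ d ∈ inF G X, (6 / ((orb G.φ d).card : ℚ) - 1) ≤
      (gx G X).card - (inF G X).card) : False := by
  have h1 := euler_count hc hpl hX hne (compl_conn ht hX h5)
  by_cases hu : X = univ
  · have h2 : (gx G X) = univ := by
      rw [hu]; ext d; simp [mem_gx]
    have h3 : inF G X = univ := by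
      rw [hu]; ext d; simp [mem_inF]
    have h4 : (G.bd X).card = 0 := by
      rw [card_eq_zero, eq_empty_iff_forall_notMem]
      intro d hd
      rw [CM.mem_bd, hu] at hd
      exact hd.2 (mem_univ _)
    rw [h2, h3, h4] at h1
    rw [h2, h3] at hJ
    push_cast at h1
    linarith
  · have h2 : (2 : ℚ) * (G.bd X).card + (inF G X).card ≤ (gx G X).card := by
      exact_mod_cast hB1 hu
    have h3 : ((G.bd X).card : ℚ) ≤ 5 := by exact_mod_cast h5
    linarith

end Pool.Agent.Lib.PLE
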