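import Pool.Agent.Lib.PLE.Euler

/-!
# Euler's formula implies homological planarity
-/

set_option autoImplicit false
set_option linter.unusedSectionVars false

namespace Pool.Agent.Lib.PLE

open Finset Pool.Agent.Lib.PLG

variable {D : Type*} [Fintype D] [DecidableEq D] {G : CM D}

lemma finrank_le_one_of_const {π : Equiv.Perm D} {S : Finset D}
    (W : Submodule (ZMod 2) (Inv π S)) (d0 : D) (h : ∀ w ∈ W, ∀ d, w.1 d = w.1 d0) :
    Module.finrank (ZMod 2) W ≤ 1 := by
  let ev : W →ₗ[ZMod 2] ZMod 2 :=
    { toFun := fun w => w.1.1 d0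
      map_add' := fun a b => rfl
      map_smul' := fun r a => rfl }
  have hinj : Function.Injective ev := by
    rw [← LinearMap.ker_eq_bot, LinearMap.ker_eq_bot']
    intro w hw
    have h0 : w.1.1 d0 = 0 := hw
    apply Subtype.ext
    apply Subtype.ext
    funext d
    have := h w.1 w.2 d
    rw [this, h0]
    rfl
  have := LinearMap.finrank_le_finrank_of_injective hinj
  rwa [Module.finrank_self] at this

lemma const_of_inv (hconn : ∀ S : Finset D, (∀ d, G.σ d ∈ S ↔ d ∈ S) →
      (∀ d, G.α d ∈ S ↔ d ∈ S) → S = ∅ ∨ S = univ) (w : D → ZMod 2)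
    (h1 : ∀ d, w (G.σ d) = w d) (h2 : ∀ d, w (G.α d) = w d) (d0 d : D) : w d = w d0 := by
  rcases hconn (univ.filter (fun e => w e = w d0)) (by
    intro e
    rw [mem_filter, mem_filter, h1]
    simp only [mem_univ, true_and]) (by
    intro e
    rw [mem_filter, mem_filter, h2]
    simp only [mem_univ, true_and]) with h | h
  · have : d0 ∈ univ.filter (fun e => w e = w d0) := by rw [mem_filter]; exact ⟨mem_univ _, rfl⟩
    rw [h] at this
    simp at this
  · have : d ∈ univ.filter (fun e => w e = w d0) := by rw [h]; exact mem_univ _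
    exact (mem_filter.1 this).2

lemma gx_univ : gx G univ = univ := by ext d; simp [mem_gx]
lemma inF_univ : inF G univ = univ := by ext d; simp [mem_inF]

theorem PL_of_euler (hconn : ∀ S : Finset D, (∀ d, G.σ d ∈ S ↔ d ∈ S) →
      (∀ d, G.α d ∈ S ↔ d ∈ S) → S = ∅ ∨ S = univ)
    (h : (orbs G.α univ).card + 2 ≤ (orbs G.σ univ).card + (orbs G.φ univ).card) : G.PL := by
  classical
  intro c hc hcf
  rcases isEmpty_or_nonempty D with he | ⟨⟨d0⟩⟩
  · exact ⟨c, fun d => (he.false d).elim, fun d => (he.false d).elim⟩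
  have hcA : ∀ π : Equiv.Perm D, Cl π univ := fun π d => by simp
  -- cuts are orthogonal to the faces
  have hcut : ∀ y : D → ZMod 2, (∀ d, y (G.σ d) = y d) → ∀ w : D → ZMod 2,
      (∀ d, w (G.φ d) = w d) → ∑ d, w d * (y d + y (G.α d)) = 0 := by
    intro y hy w hw
    have h1 : ∑ d, w d * y (G.α d) = ∑ d, w d * y d := by
      have h2 : ∀ d, w d * y (G.α d) = w (G.φ d) * y (G.φ d) := by
        intro d
        rw [hw, CM.φ_apply, hy]
      rw [sum_congr rfl (fun d _ => h2 d)]
      exact Equiv.sum_comp G.φ (fun d => w d * y d)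
    simp only [mul_add, sum_add_distrib, h1]
    exact CharTwo.add_self_eq_zero _
  have h1 := LinearMap.finrank_range_add_finrank_ker (pairB G univ)
  have h2 := LinearMap.finrank_range_add_finrank_ker (delta G univ)
  have h3 := Subspace.finrank_add_finrank_dualCoannihilator_eq (LinearMap.range (pairB G univ))
  have h4 : Module.finrank (ZMod 2) (LinearMap.range (pairB G univ)).dualCoannihilator ≤ 1 := by
    refine finrank_le_one_of_const _ d0 ?_
    intro w hw
    rw [Submodule.mem_dualCoannihilator] at hw
    have hwα : ∀ d, w.1 (G.α d) = w.1 d := by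
      intro d
      apply eq_of_add_zero
      have hmem : (Pi.single d 1 + Pi.single (G.α d) 1 : D → ZMod 2) ∈
          Inv G.α (gx G univ) := by
        refine ⟨fun e => ?_, fun e he => ?_⟩
        · simp only [Pi.add_apply, Pi.single_apply]
          have e1 : (G.α e = d) ↔ (e = G.α d) :=
            ⟨fun h => by rw [← h, G.αα], fun h => by rw [h, G.αα]⟩
          have e2 : (G.α e = G.α d) ↔ (e = d) := ⟨fun h => G.α.injective h, fun h => by rw [h]⟩
          simp only [e1, e2]
          exact add_comm _ _
        · rw [gx_univ] at he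
          exact absurd (mem_univ e) he
      have h5 := hw _ (LinearMap.mem_range_self (pairB G univ) ⟨_, hmem⟩)
      simp only [pairB, LinearMap.coe_mk, AddHom.coe_mk, Pi.add_apply, mul_add,
        sum_add_distrib, Pi.single_apply, mul_ite, mul_one, mul_zero, sum_ite_eq', mem_univ,
        if_true] at h5
      exact h5
    have hwσ : ∀ d, w.1 (G.σ d) = w.1 d := by
      intro d
      have h5 := w.2.1 (G.α d)
      rw [CM.φ_apply, G.αα] at h5
      rw [h5, hwα]
    exact fun d => const_of_inv hconn w.1 hwσ hwα d0 d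
  have h5 : Module.finrank (ZMod 2) (LinearMap.ker (delta G univ)) ≤ 1 := by
    refine finrank_le_one_of_const _ d0 ?_
    intro y hy
    rw [LinearMap.mem_ker] at hy
    have hyα : ∀ d, y.1 (G.α d) = y.1 d := by
      intro d
      apply eq_of_add_zero
      have h6 := congrFun hy d
      simpa [delta, gx_univ] using h6
    exact fun d => const_of_inv hconn y.1 y.2.1 hyα d0 d
  have hle : LinearMap.range (delta G univ) ≤
      (LinearMap.ker (pairB G univ)).map (Inv G.α (gx G univ)).subtype := by
    rintro _ ⟨y, rfl⟩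
    have hmem : (delta G univ) y ∈ Inv G.α (gx G univ) := by
      refine ⟨fun d => ?_, fun d hd => ?_⟩
      · simp only [delta, LinearMap.coe_mk, AddHom.coe_mk, gx_univ, mem_univ, if_true, G.αα]
        exact add_comm _ _
      · rw [gx_univ] at hd
        exact absurd (mem_univ d) hd
    refine ⟨⟨_, hmem⟩, ?_, rfl⟩
    rw [SetLike.mem_coe, LinearMap.mem_ker]
    ext w
    have h6 := hcut y.1 y.2.1 w.1 w.2.1
    simpa [pairB, delta, gx_univ] using h6
  have e1 : Module.finrank (ZMod 2) (LinearMap.ker (pairB G univ)) =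
      Module.finrank (ZMod 2) ((LinearMap.ker (pairB G univ)).map
        (Inv G.α (gx G univ)).subtype) :=
    (LinearEquiv.finrank_eq (Submodule.equivSubtypeMap _ _)).trans rfl
  rw [finrank_Inv (gx_cl univ)] at h1
  rw [finrank_Inv (hcA _)] at h2
  rw [finrank_Inv (inF_cl univ)] at h3
  have g1 : (orbs G.α (gx G univ)).card = (orbs G.α univ).card := by rw [gx_univ]
  have g3 : (orbs G.φ (inF G univ)).card = (orbs G.φ univ).card := by rw [inF_univ]
  rw [g1] at h1
  rw [g3] at h3
  have heq : LinearMap.range (delta G univ) =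
      (LinearMap.ker (pairB G univ)).map (Inv G.α (gx G univ)).subtype := by
    apply Submodule.eq_of_le_of_finrank_le hle
    rw [← e1]
    omega
  have hcmem : c ∈ (LinearMap.ker (pairB G univ)).map (Inv G.α (gx G univ)).subtype := by
    have hm : c ∈ Inv G.α (gx G univ) :=
      ⟨hc, fun d hd => by rw [gx_univ] at hd; exact absurd (mem_univ d) hd⟩
    refine ⟨⟨c, hm⟩, ?_, rfl⟩
    rw [SetLike.mem_coe, LinearMap.mem_ker]
    ext w
    have key : ∑ d, w.1 d * c d = 0 := by
      -- group by faces
      have h7 : ∀ d ∈ (univ : Finset D), orb G.φ d ∈ orbs G.φ univ :=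
        fun d hd => mem_image_of_mem _ hd
      rw [← sum_fiberwise_of_maps_to h7]
      refine sum_eq_zero (fun O hO => ?_)
      obtain ⟨d1, _, rfl⟩ := mem_image.1 hO
      have h8 : ∀ d ∈ univ.filter (fun d => orb G.φ d = orb G.φ d1),
          w.1 d * c d = w.1 d1 * c d := by
        intro d hd
        have h9 : d ∈ orb G.φ d1 := by
          rw [← (mem_filter.1 hd).2]
          exact self_mem_orb _ _
        rw [inv_sc w.2.1 (mem_orb.1 h9)]
      rw [sum_congr rfl h8, ← mul_sum]
      have h10 : univ.filter (fun d => orb G.φ d = orb G.φ d1) =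
          univ.filter (fun e => G.SF d1 e) := by
        ext x
        simp only [mem_filter, mem_univ, true_and]
        constructor
        · intro hx
          exact mem_orb.1 (hx ▸ self_mem_orb G.φ x)
        · intro hx
          exact (orb_eq hx).symm
      rw [h10, hcf d1, mul_zero]
    simpa [pairB] using key
  rw [← heq] at hcmem
  obtain ⟨y, hy⟩ := hcmem
  refine ⟨y.1, y.2.1, fun d => ?_⟩
  rw [← hy]
  simp [delta, gx_univ]

end Pool.Agent.Lib.PLE
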