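import Pool.Agent.Lib.PLE.Inv
import Pool.Agent.Lib.PLG.Base

/-!
# The Euler inequality for a vertex set with connected complement

`gx G X`: the darts of the edges with both ends in `X`; `inF G X`: the darts of the faces all of
whose vertices lie in `X`. If `G` is planar (`PL`) and the complement of `X` is connected, then the
inner faces generate the cycle space of the graph induced on `X`, which gives
`#edges + 1 ≤ #vertices + #inner faces`.
-/

set_option autoImplicit false
set_option linter.unusedSectionVars false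

namespace Pool.Agent.Lib.PLE

open Finset Pool.Agent.Lib.PLG

variable {D : Type*} [Fintype D] [DecidableEq D] (G : CM D)

/-- darts of the edges with both ends in `X` -/
def gx (X : Finset D) : Finset D := X.filter (fun d => G.α d ∈ X)

/-- darts of the inner faces of `X` -/
noncomputable def inF (X : Finset D) : Finset D := by
  classical exact univ.filter (fun d => ∀ e, G.SF d e → e ∈ X)

variable {G}

lemma mem_gx {X : Finset D} {d : D} : d ∈ gx G X ↔ d ∈ X ∧ G.α d ∈ X := by
  unfold gx; rw [mem_filter]

lemma mem_inF {X : Finset D} {d : D} : d ∈ inF G X ↔ ∀ e, G.SF d e → e ∈ X := by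
  classical
  unfold inF
  rw [mem_filter]
  simp

lemma gx_cl (X : Finset D) : Cl G.α (gx G X) := by
  intro d
  rw [mem_gx, mem_gx, G.αα]
  exact and_comm

lemma inF_cl (X : Finset D) : Cl G.φ (inF G X) := by
  intro d
  rw [mem_inF, mem_inF]
  constructor
  · intro h e he
    exact h e (Equiv.Perm.sameCycle_apply_left.2 he)
  · intro h e he
    exact h e (Equiv.Perm.sameCycle_apply_left.1 he)

lemma inF_subset_gx {X : Finset D} (hX : G.IsV X) : inF G X ⊆ gx G X := by
  intro d hd
  rw [mem_inF] at hd
  rw [mem_gx]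
  refine ⟨hd d (Equiv.Perm.SameCycle.refl _ _), ?_⟩
  have h1 := hd (G.φ d) (Equiv.Perm.SameCycle.refl _ _).apply_right
  rw [CM.φ_apply] at h1
  exact (hX _).1 h1

lemma isV_cl {X : Finset D} (hX : G.IsV X) : Cl G.σ X := hX

/-- planarity, tested against all functions which are constant on the faces -/
lemma PL_dual (h : G.PL) {c : D → ZMod 2} (hc : ∀ d, c (G.α d) = c d)
    (h2 : ∀ w : D → ZMod 2, (∀ d, w (G.φ d) = w d) → ∑ d, w d * c d = 0) :
    ∃ y : D → ZMod 2, (∀ d, y (G.σ d) = y d) ∧ ∀ d, c d = y d + y (G.α d) := by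
  refine h c hc (fun d => ?_)
  have h3 := h2 (fun e => if G.SF d e then 1 else 0) (fun e => by
    simp only [CM.SF, Equiv.Perm.sameCycle_apply_right])
  rw [sum_filter]
  refine Eq.trans (sum_congr rfl fun e _ => ?_) h3
  by_cases he : G.SF d e
  · simp [he]
  · simp [he]

lemma sum_alpha (c : D → ZMod 2) (hc : ∀ d, c (G.α d) = c d) : ∑ d, c d = 0 := by
  refine Finset.sum_involution (fun d _ => G.α d) ?_ ?_ ?_ ?_
  · intro d _
    rw [hc]
    exact CharTwo.add_self_eq_zero _
  · intro d _ _
    exact G.αne d
  · intro d _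
    exact mem_univ _
  · intro d _
    exact G.αα d

lemma dual_sum (f : Module.Dual (ZMod 2) (D → ZMod 2)) (v : D → ZMod 2) :
    f v = ∑ d, f (Pi.single d 1) * v d := by
  have h : v = ∑ d, v d • (Pi.single d (1 : ZMod 2) : D → ZMod 2) := by
    ext x
    rw [Finset.sum_apply]
    simp [Pi.single_apply]
  conv_lhs => rw [h]
  rw [map_sum]
  refine sum_congr rfl (fun d _ => ?_)
  rw [map_smul, smul_eq_mul, mul_comm]

/-- the functions orthogonal to all functions which are constant on the faces -/
def Pp (G : CM D) : Submodule (ZMod 2) (D → ZMod 2) where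
  carrier := {v | ∀ w : D → ZMod 2, (∀ d, w (G.φ d) = w d) → ∑ d, w d * v d = 0}
  add_mem' := by
    intro a b ha hb w hw
    simp only [Pi.add_apply, mul_add, sum_add_distrib, ha w hw, hb w hw, add_zero]
  zero_mem' := by
    intro w _
    simp
  smul_mem' := by
    intro r a ha w hw
    have h1 := ha w hw
    have h2 : ∑ d, w d * (r • a) d = r * ∑ d, w d * a d := by
      rw [mul_sum]
      refine sum_congr rfl (fun d _ => ?_)
      simp only [Pi.smul_apply, smul_eq_mul]
      ring
    rw [h2, h1, mul_zero]

lemma mem_Pp {v : D → ZMod 2} :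
    v ∈ Pp G ↔ ∀ w : D → ZMod 2, (∀ d, w (G.φ d) = w d) → ∑ d, w d * v d = 0 := Iff.rfl

lemma eq_of_add_zero {a b : ZMod 2} (h : a + b = 0) : b = a := by
  rw [CharTwo.add_eq_zero] at h
  exact h.symm

/-- A function on the edges inside `X` which is even on the inner faces is a cut. -/
theorem ext_cut (hpl : G.PL) {X : Finset D} (hX : G.IsV X)
    (hconn : ∀ Z : Finset D, G.IsV Z → Z ⊆ Xᶜ → (∀ d ∈ Z, G.α d ∉ Z → G.α d ∈ X) →
      Z = ∅ ∨ Z = Xᶜ)
    {c : D → ZMod 2} (hc : c ∈ Inv G.α (gx G X))
    (h2 : ∀ w ∈ Inv G.φ (inF G X), ∑ d, w d * c d = 0) :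
    ∃ y : D → ZMod 2, (∀ d, y (G.σ d) = y d) ∧ ∀ d ∈ gx G X, c d = y d + y (G.α d) := by
  classical
  have hmem : c ∈ Inv G.α (gx G X)ᶜ ⊔ Pp G := by
    by_contra hno
    obtain ⟨f, hfc, hf⟩ := Submodule.exists_dual_map_eq_bot_of_notMem hno inferInstance
    have hvan : ∀ v ∈ Inv G.α (gx G X)ᶜ ⊔ Pp G, f v = 0 := by
      intro v hv
      have : f v ∈ (Inv G.α (gx G X)ᶜ ⊔ Pp G).map f := Submodule.mem_map_of_mem hv
      rw [hf, Submodule.mem_bot] at this
      exact this
    set w : D → ZMod 2 := fun d => f (Pi.single d 1) with hw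
    have hsum : ∀ v, f v = ∑ d, w d * v d := dual_sum f
    have hwφ : ∀ d, w (G.φ d) = w d := by
      intro d
      apply eq_of_add_zero
      have h1 : (Pi.single d 1 + Pi.single (G.φ d) 1 : D → ZMod 2) ∈ Pp G := by
        intro w' hw'
        simp only [Pi.add_apply, mul_add, sum_add_distrib]
        simp only [Pi.single_apply, mul_ite, mul_one, mul_zero, sum_ite_eq', mem_univ, if_true]
        rw [hw']
        exact CharTwo.add_self_eq_zero _
      have h3 := hvan _ (Submodule.mem_sup_right h1)
      rw [map_add] at h3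
      exact h3
    have hwα : ∀ d, d ∉ gx G X → w (G.α d) = w d := by
      intro d hd
      apply eq_of_add_zero
      have hd' : G.α d ∉ gx G X := fun h => hd ((gx_cl X d).1 h)
      have h1 : (Pi.single d 1 + Pi.single (G.α d) 1 : D → ZMod 2) ∈ Inv G.α (gx G X)ᶜ := by
        refine ⟨fun e => ?_, fun e he => ?_⟩
        · simp only [Pi.add_apply, Pi.single_apply]
          have e1 : (G.α e = d) ↔ (e = G.α d) :=
            ⟨fun h => by rw [← h, G.αα], fun h => by rw [h, G.αα]⟩
          have e2 : (G.α e = G.α d) ↔ (e = d) := ⟨fun h => G.α.injective h, fun h => by rw [h]⟩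
          simp only [e1, e2]
          exact add_comm _ _
        · rw [mem_compl, not_not] at he
          simp only [Pi.add_apply, Pi.single_apply]
          have n1 : e ≠ d := fun h => hd (h ▸ he)
          have n2 : e ≠ G.α d := fun h => hd' (h ▸ he)
          simp [n1, n2]
      have h3 := hvan _ (Submodule.mem_sup_left h1)
      rw [map_add] at h3
      exact h3
    have hXc : ∀ d, d ∉ X → w (G.α d) = w d ∧ w (G.σ d) = w d := by
      intro d hd
      have h1 : d ∉ gx G X := fun h => hd (mem_gx.1 h).1
      have h3 := hwα d h1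
      refine ⟨h3, ?_⟩
      have h4 := hwφ (G.α d)
      rw [CM.φ_apply, G.αα] at h4
      rw [h4, h3]
    obtain ⟨κ, hκ⟩ : ∃ κ : ZMod 2, ∀ d, d ∉ X → w d = κ := by
      rcases (Xᶜ).eq_empty_or_nonempty with h | ⟨d0, hd0⟩
      · refine ⟨0, fun d hd => ?_⟩
        rw [← mem_compl, h] at hd
        simp at hd
      · refine ⟨w d0, fun d hd => ?_⟩
        have hZ := hconn (Xᶜ.filter (fun e => w e = w d0)) (by
            intro e
            rw [mem_filter, mem_filter, mem_compl, mem_compl, hX]
            constructor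
            · rintro ⟨h1, h3⟩
              exact ⟨h1, by rw [← h3, (hXc e h1).2]⟩
            · rintro ⟨h1, h3⟩
              exact ⟨h1, by rw [← h3, (hXc e h1).2]⟩) (filter_subset _ _) (by
            intro e he hne
            rw [mem_filter, mem_compl] at he
            by_contra hne2
            apply hne
            rw [mem_filter, mem_compl]
            exact ⟨hne2, by rw [← he.2, (hXc e he.1).1]⟩)
        rcases hZ with h | h
        · have : d0 ∈ Xᶜ.filter (fun e => w e = w d0) := by
            rw [mem_filter]; exact ⟨hd0, rfl⟩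
          rw [h] at this
          simp at this
        · have : d ∈ Xᶜ.filter (fun e => w e = w d0) := by
            rw [h, mem_compl]; exact hd
          exact (mem_filter.1 this).2
    have hin : (fun d => w d + κ) ∈ Inv G.φ (inF G X) := by
      refine ⟨fun d => by simp only [hwφ d], fun d hd => ?_⟩
      rw [mem_inF] at hd
      push Not at hd
      obtain ⟨e, he, heX⟩ := hd
      have h1 : w e = w d := inv_sc hwφ he
      have h3 := hκ e heX
      simp only [← h1, h3]
      exact CharTwo.add_self_eq_zero _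
    have h3 := h2 _ hin
    apply hfc
    rw [hsum]
    simp only [add_mul, sum_add_distrib, ← mul_sum] at h3
    rw [sum_alpha c hc.1, mul_zero, add_zero] at h3
    exact h3
  obtain ⟨u, hu, p, hp, hup⟩ := Submodule.mem_sup.1 hmem
  have hpα : ∀ d, p (G.α d) = p d := by
    intro d
    have h1 := congrFun hup d
    have h3 := congrFun hup (G.α d)
    simp only [Pi.add_apply] at h1 h3
    rw [hu.1, hc.1, ← h1] at h3
    exact add_left_cancel h3
  obtain ⟨y, hy1, hy2⟩ := PL_dual hpl hpα (mem_Pp.1 hp)
  refine ⟨y, hy1, fun d hd => ?_⟩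
  rw [← hy2, ← congrFun hup d, Pi.add_apply, hu.2 d (by rw [mem_compl, not_not]; exact hd),
    zero_add]

/-- the coboundary on `X` -/
def delta (G : CM D) (X : Finset D) : Inv G.σ X →ₗ[ZMod 2] (D → ZMod 2) where
  toFun y := fun d => if d ∈ gx G X then y.1 d + y.1 (G.α d) else 0
  map_add' a b := by
    ext d
    by_cases hd : d ∈ gx G X
    · simp only [hd, if_true, Pi.add_apply, Submodule.coe_add]; ring
    · simp [hd]
  map_smul' r a := by
    ext d
    by_cases hd : d ∈ gx G X
    · simp only [hd, if_true, Pi.smul_apply, Submodule.coe_smul, smul_eq_mul, RingHom.id_apply]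
      ring
    · simp [hd]

/-- the pairing with the inner faces -/
def pairB (G : CM D) (X : Finset D) :
    Inv G.α (gx G X) →ₗ[ZMod 2] Module.Dual (ZMod 2) (Inv G.φ (inF G X)) where
  toFun c :=
    { toFun := fun w => ∑ d, w.1 d * c.1 d
      map_add' := fun a b => by
        simp only [Submodule.coe_add, Pi.add_apply, add_mul, sum_add_distrib]
      map_smul' := fun r a => by
        simp only [Submodule.coe_smul, Pi.smul_apply, smul_eq_mul, RingHom.id_apply, mul_sum,
          mul_assoc] }
  map_add' a b := by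
    ext w
    simp only [Submodule.coe_add, Pi.add_apply, mul_add, sum_add_distrib, LinearMap.coe_mk,
      AddHom.coe_mk, LinearMap.add_apply]
  map_smul' r a := by
    ext w
    simp only [Submodule.coe_smul, Pi.smul_apply, smul_eq_mul, LinearMap.coe_mk,
      AddHom.coe_mk, LinearMap.smul_apply, RingHom.id_apply, mul_sum]
    refine sum_congr rfl (fun d _ => ?_)
    ring

theorem euler_dim (hpl : G.PL) {X : Finset D} (hX : G.IsV X) (hne : X.Nonempty)
    (hconn : ∀ Z : Finset D, G.IsV Z → Z ⊆ Xᶜ → (∀ d ∈ Z, G.α d ∉ Z → G.α d ∈ X) →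
      Z = ∅ ∨ Z = Xᶜ) :
    (orbs G.α (gx G X)).card + 1 ≤ (orbs G.σ X).card + (orbs G.φ (inF G X)).card := by
  classical
  have h1 := LinearMap.finrank_range_add_finrank_ker (pairB G X)
  have h2 := LinearMap.finrank_range_add_finrank_ker (delta G X)
  have h3 : Module.finrank (ZMod 2) (LinearMap.range (pairB G X)) ≤
      Module.finrank (ZMod 2) (Inv G.φ (inF G X)) := by
    refine (Submodule.finrank_le _).trans (le_of_eq ?_)
    exact Subspace.dual_finrank_eq
  have h4 : 1 ≤ Module.finrank (ZMod 2) (LinearMap.ker (delta G X)) := by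
    rw [Nat.one_le_iff_ne_zero]
    intro h0
    rw [Submodule.finrank_eq_zero] at h0
    obtain ⟨d0, hd0⟩ := hne
    let z : Inv G.σ X := ⟨fun d => if d ∈ X then 1 else 0, by
      refine ⟨fun d => by simp only [hX d], fun d hd => by simp [hd]⟩⟩
    have hz : z ∈ LinearMap.ker (delta G X) := by
      rw [LinearMap.mem_ker]
      ext d
      simp only [delta, LinearMap.coe_mk, AddHom.coe_mk, Pi.zero_apply, z]
      by_cases hd : d ∈ gx G X
      · have h5 := mem_gx.1 hd
        simp only [hd, if_true, h5.1, h5.2]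
        exact CharTwo.add_self_eq_zero _
      · simp [hd]
    rw [h0, Submodule.mem_bot] at hz
    have h5 := congrFun (congrArg Subtype.val hz) d0
    simp [z, hd0] at h5
  have h6 : Module.finrank (ZMod 2) (LinearMap.ker (pairB G X)) ≤
      Module.finrank (ZMod 2) (LinearMap.range (delta G X)) := by
    have e1 : Module.finrank (ZMod 2) (LinearMap.ker (pairB G X)) =
        Module.finrank (ZMod 2) ((LinearMap.ker (pairB G X)).map (Inv G.α (gx G X)).subtype) :=
      (LinearEquiv.finrank_eq (Submodule.equivSubtypeMap _ _)).trans rfl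
    rw [e1]
    refine Submodule.finrank_mono ?_
    rintro _ ⟨c, hc, rfl⟩
    rw [SetLike.mem_coe, LinearMap.mem_ker] at hc
    obtain ⟨y, hy1, hy2⟩ := ext_cut hpl hX hconn c.2 (fun w hw => by
      have := LinearMap.congr_fun hc ⟨w, hw⟩
      simpa [pairB] using this)
    refine ⟨⟨fun d => if d ∈ X then y d else 0, ?_⟩, ?_⟩
    · refine ⟨fun d => by simp only [hX d, hy1 d], fun d hd => by simp [hd]⟩
    · ext d
      simp only [delta, LinearMap.coe_mk, AddHom.coe_mk, Submodule.coe_subtype]
      by_cases hd : d ∈ gx G X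
      · have h5 := mem_gx.1 hd
        simp only [hd, if_true, h5.1, h5.2]
        exact (hy2 d hd).symm
      · simp only [hd, if_false]
        exact (c.2.2 d hd).symm
  rw [finrank_Inv (gx_cl X)] at h1
  rw [finrank_Inv (isV_cl hX)] at h2
  rw [finrank_Inv (inF_cl X)] at h3
  omega

end Pool.Agent.Lib.PLE
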