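import Mathlib

/-!
# Invariant functions of a permutation

The space of functions `D → ZMod 2` which are invariant under a permutation `π` and vanish outside
an invariant set `S` has dimension the number of orbits of `π` in `S`.
-/

set_option autoImplicit false
set_option linter.unusedSectionVars false

namespace Pool.Agent.Lib.PLE

open Finset

variable {D : Type*} [Fintype D] [DecidableEq D]

/-- the orbit of `d` -/
noncomputable def orb (π : Equiv.Perm D) (d : D) : Finset D := by
  classical exact univ.filter (fun e => π.SameCycle d e)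

lemma mem_orb {π : Equiv.Perm D} {d e : D} : e ∈ orb π d ↔ π.SameCycle d e := by
  classical
  unfold orb
  simp

lemma self_mem_orb (π : Equiv.Perm D) (d : D) : d ∈ orb π d := mem_orb.2 (Equiv.Perm.SameCycle.refl _ _)

lemma orb_eq {π : Equiv.Perm D} {d e : D} (h : π.SameCycle d e) : orb π d = orb π e := by
  ext x
  rw [mem_orb, mem_orb]
  exact ⟨fun h' => h.symm.trans h', fun h' => h.trans h'⟩

lemma orb_card_pos (π : Equiv.Perm D) (d : D) : 0 < (orb π d).card :=
  card_pos.2 ⟨d, self_mem_orb π d⟩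

/-- the orbits in `S` -/
noncomputable def orbs (π : Equiv.Perm D) (S : Finset D) : Finset (Finset D) := S.image (orb π)

/-- `S` is a union of orbits -/
def Cl (π : Equiv.Perm D) (S : Finset D) : Prop := ∀ d, π d ∈ S ↔ d ∈ S

lemma Cl.zpow {π : Equiv.Perm D} {S : Finset D} (h : Cl π S) (n : ℤ) (d : D) :
    (π ^ n) d ∈ S ↔ d ∈ S := by
  induction n using Int.induction_on generalizing d with
  | zero => simp
  | succ n ih => rw [zpow_add_one, Equiv.Perm.mul_apply, ih, h]
  | pred n ih =>
    rw [zpow_sub_one, Equiv.Perm.mul_apply, ih]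
    have h1 := h (π⁻¹ d)
    rw [show π (π⁻¹ d) = d from Equiv.apply_symm_apply π d] at h1
    exact h1.symm

lemma Cl.sc {π : Equiv.Perm D} {S : Finset D} (h : Cl π S) {d e : D} (hde : π.SameCycle d e) :
    d ∈ S ↔ e ∈ S := by
  obtain ⟨n, rfl⟩ := hde
  exact (h.zpow n d).symm

lemma Cl.orb_subset {π : Equiv.Perm D} {S : Finset D} (h : Cl π S) {d : D} (hd : d ∈ S) :
    orb π d ⊆ S := fun _ he => (h.sc (mem_orb.1 he)).1 hd

/-- the number of orbits in `S` as a sum over `S` -/
lemma sum_inv_card {π : Equiv.Perm D} {S : Finset D} (h : Cl π S) :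
    ∑ d ∈ S, (1 : ℚ) / ((orb π d).card : ℚ) = ((orbs π S).card : ℚ) := by
  have h1 : ∀ d ∈ S, orb π d ∈ orbs π S := fun d hd => mem_image_of_mem _ hd
  rw [← sum_fiberwise_of_maps_to h1, card_eq_sum_ones, Nat.cast_sum]
  refine sum_congr rfl (fun O hO => ?_)
  obtain ⟨d0, hd0, rfl⟩ := mem_image.1 hO
  have e1 : S.filter (fun d => orb π d = orb π d0) = orb π d0 := by
    ext x
    rw [mem_filter]
    constructor
    · rintro ⟨_, hx⟩
      rw [← hx]
      exact self_mem_orb π x
    · intro hx
      exact ⟨h.orb_subset hd0 hx, (orb_eq (mem_orb.1 hx)).symm⟩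
  rw [e1]
  have e2 : ∀ d ∈ orb π d0, (1 : ℚ) / ((orb π d).card : ℚ) = 1 / ((orb π d0).card : ℚ) := by
    intro d hd
    rw [orb_eq (mem_orb.1 hd)]
  rw [sum_congr rfl e2, sum_const, nsmul_eq_mul]
  have h3 : ((orb π d0).card : ℚ) ≠ 0 := by
    have := orb_card_pos π d0
    positivity
  simp only [Nat.cast_one]
  field_simp

/-- invariant functions which vanish outside `S` -/
def Inv (π : Equiv.Perm D) (S : Finset D) : Submodule (ZMod 2) (D → ZMod 2) where
  carrier := {c | (∀ d, c (π d) = c d) ∧ ∀ d, d ∉ S → c d = 0}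
  add_mem' := by
    rintro a b ⟨h1, h2⟩ ⟨h3, h4⟩
    exact ⟨fun d => by simp [h1 d, h3 d], fun d hd => by simp [h2 d hd, h4 d hd]⟩
  zero_mem' := ⟨fun d => rfl, fun d _ => rfl⟩
  smul_mem' := by
    rintro r a ⟨h1, h2⟩
    exact ⟨fun d => by simp [h1 d], fun d hd => by simp [h2 d hd]⟩

lemma mem_Inv {π : Equiv.Perm D} {S : Finset D} {c : D → ZMod 2} :
    c ∈ Inv π S ↔ (∀ d, c (π d) = c d) ∧ ∀ d, d ∉ S → c d = 0 := Iff.rfl

lemma inv_zpow {π : Equiv.Perm D} {c : D → ZMod 2} (h : ∀ d, c (π d) = c d) (n : ℤ) (d : D) :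
    c ((π ^ n) d) = c d := by
  induction n using Int.induction_on generalizing d with
  | zero => simp
  | succ n ih => rw [zpow_add_one, Equiv.Perm.mul_apply, ih, h]
  | pred n ih =>
    rw [zpow_sub_one, Equiv.Perm.mul_apply, ih]
    have h1 := h (π⁻¹ d)
    rw [show π (π⁻¹ d) = d from Equiv.apply_symm_apply π d] at h1
    exact h1.symm

lemma inv_sc {π : Equiv.Perm D} {c : D → ZMod 2} (h : ∀ d, c (π d) = c d) {d e : D}
    (hde : π.SameCycle d e) : c e = c d := by
  obtain ⟨n, rfl⟩ := hde
  exact inv_zpow h n d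

/-- the restriction to orbit representatives -/
noncomputable def repr {π : Equiv.Perm D} {S : Finset D} (O : {O // O ∈ orbs π S}) : D :=
  (mem_image.1 O.2).choose

lemma repr_mem {π : Equiv.Perm D} {S : Finset D} (O : {O // O ∈ orbs π S}) : repr O ∈ S :=
  (mem_image.1 O.2).choose_spec.1

lemma repr_orb {π : Equiv.Perm D} {S : Finset D} (O : {O // O ∈ orbs π S}) :
    orb π (repr O) = O.1 := (mem_image.1 O.2).choose_spec.2

/-- invariant functions and functions on the set of orbits -/
noncomputable def invEquiv {π : Equiv.Perm D} {S : Finset D} (h : Cl π S) :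
    Inv π S ≃ₗ[ZMod 2] ({O // O ∈ orbs π S} → ZMod 2) where
  toFun c := fun O => c.1 (repr O)
  map_add' _ _ := rfl
  map_smul' _ _ := rfl
  invFun g := ⟨fun d => if hd : d ∈ S then g ⟨orb π d, mem_image_of_mem _ hd⟩ else 0, by
    refine ⟨fun d => ?_, fun d hd => by simp [hd]⟩
    have e : orb π (π d) = orb π d := (orb_eq (Equiv.Perm.SameCycle.refl π d).apply_right).symm
    by_cases hd : d ∈ S
    · have hd' : π d ∈ S := (h d).2 hd
      simp only [hd, hd', dite_true, e]
    · have hd' : π d ∉ S := fun hh => hd ((h d).1 hh)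
      simp [hd, hd']⟩
  left_inv := by
    intro c
    ext d
    by_cases hd : d ∈ S
    · simp only [hd, dite_true]
      have h1 := repr_orb (⟨orb π d, mem_image_of_mem _ hd⟩ : {O // O ∈ orbs π S})
      have h2 : π.SameCycle d (repr (⟨orb π d, mem_image_of_mem _ hd⟩ : {O // O ∈ orbs π S})) := by
        rw [← mem_orb]
        have := self_mem_orb π (repr (⟨orb π d, mem_image_of_mem _ hd⟩ : {O // O ∈ orbs π S}))
        rw [h1] at this
        exact this
      exact inv_sc c.2.1 h2
    · simp only [hd, dite_false]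
      exact (c.2.2 d hd).symm
  right_inv := by
    intro g
    ext O
    have h1 := repr_mem O
    simp only [h1, dite_true]
    congr 1
    exact Subtype.ext (repr_orb O)

theorem finrank_Inv {π : Equiv.Perm D} {S : Finset D} (h : Cl π S) :
    Module.finrank (ZMod 2) (Inv π S) = (orbs π S).card := by
  rw [LinearEquiv.finrank_eq (invEquiv h), Module.finrank_fintype_fun_eq_card]
  simp

end Pool.Agent.Lib.PLE
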